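import Pool.Agent.Q299.RM.Sch2
import Pool.Agent.Q299.TD.Reached
import Pool.Agent.W418.Gen4

/-!
MP_602153_ag: projective flat models over `ℤ` of projective varieties over `ℚ`, of all dimensions,
with the given generic fibre, which are regular at the centres of valuations of the residue fields
of arbitrary regular points of the generic fibre.

Let `X` be an integral projective scheme over `ℚ` (for example a smooth projective variety), let
`x₁, ..., x_r` be points of `X`, closed or not, at which `X` is regular, and let `W_i` be a valuation
ring of the residue field of `x_i` (for example of the function field of `X` if `x_i` is the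
generic point) over a prime number `p_i` such that `W_i[1 / p_i]` is the residue field; here `p_1`,
..., `p_r` are distinct. Suppose that the `W_i` belong to the smallest class of valuation rings over
`ℤ` which contains

* the trivial valuations, the discrete valuations of arbitrary finite rank (more generally the
  finite composites of discrete and divergent valuations), the divergent valuations, and the
  valuations which are log uniformizable on all `ℤ`-algebras of finite type with the given
  fraction field (by Cossart and Piltant all valuations if these algebras have dimension at most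
  `3`);

and which is closed under composition and under towers without defect (`IsReached`). Then `X` has an
integral projective flat model over `ℤ` which is regular at the centre of `W_i` (a point of the
closure of `x_i` over `p_i`) for all `i`.

The centre of a valuation `V` of the function field of `X` over `p` is the centre of the
valuation ring `W` which is induced on the residue field of the centre `x` of `V[1 / p]` on `X`.
So the local form of the question has a positive answer at all valuations `V` such that `W` belongs
to the class; nothing is assumed on `V[1 / p]`. For example, by Cossart and Piltant this applies to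
all `V` such that `x` has dimension at most `2`. The proof: a blowing-up of the closure of `x` with
centre over `p`, given by the theory of the class, is extended to a model of `X`, and then the
closure of `x` is separated from the singularities of the model by dilatations (blowing-ups with
centres in the fibre over `p`); the resulting local ring has a regular quotient by a prime ideal
with sufficiently few generators.

The starting result `BoundedDegree` has the case in which the points `x_i` are closed (with all
closed points of bounded degree at once); then the residue fields are number fields and the `W_i` are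
discrete. The result `RegularAlongValuations` for MP_6a3dac_ag is the case in which the `x_i` are
the generic point (over the rings of integers of number fields).
-/

set_option autoImplicit false

open AlgebraicGeometry CategoryTheory CategoryTheory.Limits

namespace Pool.Agent.Results.MP_602153_ag.RegularAlongComposites

open Pool.Agent.Q299.TD (IsReached allGP_of_isReached)
open Pool.Agent.Q299.RM (main2)

/-- The valuation ring `W` of `κ` lies over the prime number `p`, and `W[1 / p] = κ`. -/
def LiesOver {κ : Type} [Field κ] (W : ValuationSubring κ) (p : ℕ) : Prop :=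
  p.Prime ∧ W.valuation (p : κ) < 1 ∧ ∀ z : κ, ∃ n : ℕ, (p : κ) ^ n * z ∈ W

/-- The model `Y` of `X`, with the morphism `m` from the generic fibre `X`, is regular at the centre
of the valuation ring `W` of the residue field of the point `x` of `X`: the morphism from the
spectrum of the residue field extends to the spectrum of `W`, and `Y` is regular at the image of the
closed point. -/
def IsRegularAtCentre {X Y : Scheme.{0}} (m : X ⟶ Y) (x : X)
    (W : ValuationSubring (X.residueField x)) : Prop :=
  ∃ ζ : Spec (CommRingCat.of W) ⟶ Y,
    Spec.map (CommRingCat.ofHom W.subtype) ≫ ζ = X.fromSpecResidueField x ≫ m ∧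
    IsRegularLocalRing (Y.presheaf.stalk (ζ (IsLocalRing.closedPoint W : PrimeSpectrum W)))

/-- A prime number is a unit in the valuation rings over other prime numbers. -/
lemma LiesOver.inv_mem {F : Type} [Field F] {V : ValuationSubring F} {p q : ℕ}
    (hV : LiesOver V p) (hq : q.Prime) (hpq : p ≠ q) : ((q : F))⁻¹ ∈ V := by
  by_contra h
  have h1 : V.valuation (q : F) < 1 := by
    rw [← V.valuation_le_one_iff, map_inv₀, not_le] at h
    by_cases h0 : V.valuation (q : F) = 0
    · rw [h0]; exact zero_lt_one
    · exact (one_lt_inv₀ (zero_lt_iff.2 h0)).1 h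
  have hc : Nat.Coprime p q := (Nat.coprime_primes hV.1 hq).2 hpq
  have h2 : ((p : ℤ) * p.gcdA q + (q : ℤ) * p.gcdB q : ℤ) = 1 := by
    rw [← Nat.gcd_eq_gcd_ab, hc.gcd_eq_one]
    rfl
  have h3 : (p : F) * (p.gcdA q : F) + (q : F) * (p.gcdB q : F) = 1 := by
    have h5 := congrArg (Int.cast : ℤ → F) h2
    push_cast at h5
    exact h5
  have hint : ∀ m : ℤ, V.valuation (m : F) ≤ 1 := fun m =>
    (V.valuation_le_one_iff _).2 (intCast_mem V m)
  have h4 : V.valuation ((p : F) * (p.gcdA q : F) + (q : F) * (p.gcdB q : F)) < 1 := by
    refine Valuation.map_add_lt _ ?_ ?_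
    · rw [map_mul]
      exact mul_lt_one_of_lt_of_le hV.2.1 (hint _)
    · rw [map_mul]
      exact mul_lt_one_of_lt_of_le h1 (hint _)
  rw [h3, map_one] at h4
  exact lt_irrefl _ h4

/-- Let `X` be an integral projective scheme over `ℚ`, let `x i` be finitely many points of `X` at
which `X` is regular, and let `W i` be valuation rings of the residue fields of the points `x i` in
the class `IsReached ℤ`: they are obtained from trivial, discrete, divergent, or log
uniformizable valuations by composition and by towers of transcendental steps without limit key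
polynomials and finite extensions without defect. Suppose that `W i` lies over the prime number `p i`,
that `(W i)[1 / p i]` is the residue field, and that the `p i` are distinct. Then `X` has an integral
projective flat model `Y` over `ℤ` which is regular at the centres of all `W i`. -/
theorem result (X : Scheme.{0}) [IsIntegral X]
    (hX : ∃ (A : Type) (_ : CommRing A) (_ : Algebra ℚ A) (𝒜 : ℕ → Submodule ℚ A)
      (_ : GradedAlgebra 𝒜),
      (∀ a ∈ 𝒜 0, ∃ q : ℚ, algebraMap ℚ A q = a) ∧
      (∃ s : Finset A, (∀ a ∈ s, a ∈ 𝒜 1) ∧ Algebra.adjoin ℚ (s : Set A) = ⊤) ∧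
      Nonempty (X ≅ Proj 𝒜))
    (ι : Type) [Finite ι] (x : ι → X) (hx : ∀ i, IsRegularLocalRing (X.presheaf.stalk (x i)))
    (W : ∀ i, ValuationSubring (X.residueField (x i))) (p : ι → ℕ) (hp : Function.Injective p)
    (hW : ∀ i, LiesOver (W i) (p i))
    (hC : ∀ i, IsReached ℤ (Int.castRingHom (X.residueField (x i))) (W i)) :
    ∃ (Y : Scheme.{0})
      (e : pullback (specZIsTerminal.from Y)
        (specZIsTerminal.from (Spec (CommRingCat.of ℚ))) ≅ X),
      IsIntegral Y ∧
      IsLocallyNoetherian Y ∧
      (∃ (A : Type) (_ : CommRing A) (𝒜 : ℕ → Submodule ℤ A) (_ : GradedAlgebra 𝒜),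
        (∀ a ∈ 𝒜 0, ∃ n : ℤ, (n : A) = a) ∧
        (∃ s : Finset A, (∀ a ∈ s, a ∈ 𝒜 1) ∧ Algebra.adjoin ℤ (s : Set A) = ⊤) ∧
        Nonempty (Y ≅ Proj 𝒜)) ∧
      Flat (specZIsTerminal.from Y) ∧
      ∀ i, IsRegularAtCentre (e.inv ≫ pullback.fst _ _) (x i) (W i) := by
  classical
  obtain ⟨A, _, _, 𝒜, _, h0, ⟨s, hs, hgen⟩, ⟨i⟩⟩ := hX
  let f : X ⟶ Spec (CommRingCat.of ℚ) :=
    i.hom ≫ Proj.toSpecZero 𝒜 ≫ Spec.map (CommRingCat.ofHom (algebraMap ℚ (𝒜 0)))
  choose φ hφ using fun t : ι => Spec.map_surjective (X.fromSpecResidueField (x t) ≫ f)
  let σ : ∀ t, ℚ →+* X.residueField (x t) := fun t => (φ t).hom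
  have hσ : ∀ t, X.fromSpecResidueField (x t) ≫ f = Spec.map (CommRingCat.ofHom (σ t)) :=
    fun t => (hφ t).symm
  have hσZ : ∀ t, (σ t).comp (algebraMap ℤ ℚ) = Int.castRingHom (X.residueField (x t)) :=
    fun t => RingHom.ext_int _ _
  have hσp : ∀ t (n : ℕ), σ t (algebraMap ℤ ℚ (n : ℤ)) = (n : X.residueField (x t)) := by
    intro t n
    rw [map_natCast, map_natCast]
  have hHJ : Pool.Agent.TH188.QS.HJ ℤ := Pool.Agent.TH188.QS.hj_dedekind
  obtain ⟨F, _, _, iZ, _, M, g, hg, hg0, e, hM, he, hall⟩ := main2 (O := ℤ) f 𝒜 h0 s hs hgen i rfl
    x hx W σ hσ (fun t => (p t : ℤ)) (fun t => by exact_mod_cast (hW t).1.ne_zero)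
    (fun t o => by
      have h1 : σ t (algebraMap ℤ ℚ o) = (o : X.residueField (x t)) := by
        rw [eq_intCast (algebraMap ℤ ℚ) o, map_intCast]
      rw [h1]
      exact intCast_mem (W t) o)
    (fun t z => by
      obtain ⟨n, hn⟩ := (hW t).2.2 z
      exact ⟨n, by rw [hσp]; exact hn⟩)
    (fun t t' htt => by
      rw [hσp]
      exact (hW t').inv_mem (hW t).1 fun h => htt (hp h.symm))
    (fun t => by
      rw [hσZ]
      exact allGP_of_isReached hHJ _ (W t) (hC t))
  obtain rfl : iZ = Ring.toIntAlgebra F := Subsingleton.elim _ _
  have hF : CharZero F := charZero_of_injective_ringHom (algebraMap ℚ F).injective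
  have key : ∀ (q : Pool.Agent.H968R2.Quad.model M ⟶ Spec (CommRingCat.of ℤ))
      (r : Spec (CommRingCat.of ℚ) ⟶ Spec (CommRingCat.of ℤ)),
      ∃ (e : pullback q r ≅ X), ∀ t, IsRegularAtCentre (e.inv ≫ pullback.fst _ _) (x t) (W t) := by
    intro q r
    obtain rfl : q = Pool.Agent.H968R2.Quad.modelMap M := specZIsTerminal.hom_ext _ _
    obtain rfl : r = Spec.map (CommRingCat.ofHom (algebraMap ℤ ℚ)) := specZIsTerminal.hom_ext _ _
    exact ⟨e, fun t => hall t⟩
  obtain ⟨e', h1⟩ := key (specZIsTerminal.from _) (specZIsTerminal.from _)
  exact ⟨Pool.Agent.H968R2.Quad.model M, e',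
    Pool.Agent.H968R2.Quad.model_integral M g hg hg0, Pool.Agent.W418.model_noeth M hM,
    Pool.Agent.W418.model_projective M hM, Pool.Agent.W418.model_flat M, h1⟩

end Pool.Agent.Results.MP_602153_ag.RegularAlongComposites
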